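import Pool.Agent.Q197.WC.Fix

/-!
# Sets that are not weakly compact carry fixed-point-free uniformly Lipschitz affine maps

The proof. Let `x''` be a weak-star limit point of `C` in the bidual, at distance `d > 0` to `X`.
Choose `s_n` in `C` close to `x''` on finite sets of functionals which norm the span of `x''` and the
previous points. Then the differences `x_n = s_(n+1) - s_n` form a basic sequence with bounded
coefficient functionals `u_n`, and on the closed convex hull `K` of the `s_n` the affine map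
`f(x) = x + ∑ 2^(-n-1) (1 - u_n(x - s_0)) x_n` leaves `K` invariant, because
`f(s_n) = (1 - 2^(-n-1)) s_n + ∑_(j > n) 2^(-j-1) s_j`. The linear part of `f^p` acts on the basic
sequence as the multiplier `(1 - 2^(-n-1))^p`, which is increasing in `n`, so it is bounded
uniformly in `p`. A fixed point would have all coordinates equal to one, but coordinates of points
of `K` tend to zero.
-/

set_option autoImplicit false

namespace Pool.Agent.Results.MP_f650bf_an.UniformlyLipschitzAffine

open Pool.Agent.Q197.WC NormedSpace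

universe u

/-- Let `X` be a Banach space and let `C` be a bounded closed convex subset of `X` which is not
weakly compact. There are a nonempty closed convex subset `K` of `C` and a map `f` of `K` into `K`
which is affine, uniformly Lipschitz and has no fixed point. -/
theorem result {X : Type u} [NormedAddCommGroup X] [NormedSpace ℝ X] [CompleteSpace X]
    (C : Set X) (hb : Bornology.IsBounded C) (hcl : IsClosed C) (hconv : Convex ℝ C)
    (hw : ¬ IsCompact (toWeakSpace ℝ X '' C)) :
    ∃ K : Set X, K ⊆ C ∧ K.Nonempty ∧ IsClosed K ∧ Convex ℝ K ∧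
      ∃ f : X → X, Set.MapsTo f K K ∧
        (∀ x ∈ K, ∀ y ∈ K, ∀ t ∈ Set.Icc (0 : ℝ) 1,
          f (t • x + (1 - t) • y) = t • f x + (1 - t) • f y) ∧
        (∃ L : ℝ, 0 < L ∧ ∀ p : ℕ, ∀ x ∈ K, ∀ y ∈ K, ‖f^[p] x - f^[p] y‖ ≤ L * ‖x - y‖) ∧
        ∀ x ∈ K, f x ≠ x := by
  obtain ⟨W, _, _, J, ev, xx, d, hevc, hnorm, hev, hd, hdist, happ⟩ :=
    exists_abstract C hcl hconv hb hw
  obtain ⟨s, Φ, h1, h2, h3, h4⟩ := exists_select C J ev hevc hnorm xx happ
    (fun n => d / 16 * (1 / 2) ^ n) (fun n => by positivity)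
  obtain ⟨R, hR⟩ := hb.exists_norm_le
  have hsR : ∀ n, ‖s n‖ ≤ R := fun n => hR _ (h1 n)
  have hR0 : 0 ≤ R := (norm_nonneg _).trans (hsR 0)
  have hxx : 0 ≤ ‖xx‖ := norm_nonneg _
  have hD := fun (a : ℕ → ℝ) (N n : ℕ) (hn : n < N) =>
    coeff_bound hev hd hdist h2 h3 h4 a N n hn
  have hB := fun (a : ℕ → ℝ) (N n : ℕ) (hn : n ≤ N) =>
    partial_bound hev hd hdist h2 h3 h4 hsR a N n hn
  obtain ⟨f, hf1, hf2, hf3, hf4⟩ := construct (D := 4 / d) (B := 3 + 4 / d * (‖xx‖ + R))
    (R := R) (by positivity) hD hB hsR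
  refine ⟨closure (convexHull ℝ (Set.range s)), ?_, ?_, isClosed_closure,
    (convex_convexHull ℝ _).closure, f, fun x hx => hf2 x hx, fun x _ y _ t _ => hf1 x y t,
    ⟨2 * (3 + 4 / d * (‖xx‖ + R)), by positivity, fun p x hx y hy => hf3 p x hx y hy⟩, hf4⟩
  · refine closure_minimal (convexHull_min ?_ hconv) hcl
    rintro _ ⟨n, rfl⟩
    exact h1 n
  · exact ⟨s 0, subset_closure (subset_convexHull ℝ _ ⟨0, rfl⟩)⟩

end Pool.Agent.Results.MP_f650bf_an.UniformlyLipschitzAffine
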